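import Pool.Agent.Helper92_EQC.Strong

/-!
# Squad EQC (MP_3faef8_co): balanced orientation of a finite multigraph
-/

set_option autoImplicit false

namespace Pool.Agent.EQC.H92

open Finset

/-- an involution with at most one fixed point -/
theorem exists_invol {A : Type} [Finite A] :
    ∃ q : A → A, (∀ x, q (q x) = x) ∧ ∀ x y, q x = x → q y = y → x = y := by
  classical
  rcases Nat.even_or_odd (Nat.card A) with h | h
  · obtain ⟨q, hq, hqf⟩ := exists_free_invol h
    exact ⟨q, hq, fun x _ hx => absurd hx (hqf x)⟩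
  · have hpos : 0 < Nat.card A := h.pos
    obtain ⟨z⟩ : Nonempty A := (Nat.card_pos_iff.1 hpos).1
    have h1 : Nat.card A = Nat.card {x // x = z} + Nat.card {x // ¬ x = z} := by
      rw [← Nat.card_sum]
      exact Nat.card_congr (Equiv.sumCompl (fun x => x = z)).symm
    have h2 : Nat.card {x // x = z} = 1 := by
      rw [Nat.card_eq_one_iff_unique]
      exact ⟨⟨fun x y => Subtype.ext (x.2.trans y.2.symm)⟩, ⟨⟨z, rfl⟩⟩⟩
    have h3 : Even (Nat.card {x // ¬ x = z}) := by
      rw [h1, h2] at h
      rcases Nat.even_or_odd (Nat.card {x // ¬ x = z}) with h4 | h4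
      · exact h4
      · exfalso
        have h5 : Even (1 + Nat.card {x // ¬ x = z}) := by
          rw [add_comm, Nat.even_add_one]
          exact Nat.not_even_iff_odd.2 h4
        exact (Nat.not_even_iff_odd.2 h) h5
    obtain ⟨r, hr, hrf⟩ := exists_free_invol h3
    obtain ⟨q, hq⟩ : ∃ q : A → A, ∀ x, q x = if h : ¬ x = z then (r ⟨x, h⟩ : A) else x :=
      ⟨_, fun x => rfl⟩
    have hq1 : ∀ x (h : ¬ x = z), q x = r ⟨x, h⟩ := fun x h => by rw [hq, dif_pos h]
    have hq2 : ∀ x, x = z → q x = x := fun x h => by rw [hq, dif_neg (not_not.2 h)]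
    refine ⟨q, ?_, ?_⟩
    · intro x
      by_cases hx : x = z
      · rw [hq2 x hx, hq2 x hx]
      · rw [hq1 x hx, hq1 _ (r ⟨x, hx⟩).2]
        have h5 : (⟨(r ⟨x, hx⟩ : A), (r ⟨x, hx⟩).2⟩ : {x // ¬ x = z}) = r ⟨x, hx⟩ := rfl
        rw [h5, hr]
    · have key : ∀ x, q x = x → x = z := by
        intro x hx
        by_contra hne
        rw [hq1 x hne] at hx
        exact hrf ⟨x, hne⟩ (Subtype.ext hx)
      intro x y hx hy
      rw [key x hx, key y hy]

theorem bool_not_eq {t s : Bool} (h : ¬ t = s) : (!t) = s := by
  revert h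
  cases t <;> cases s <;> decide

/-- BALANCED ORIENTATION of a finite multigraph with the edges `E` and the ends `a`, `b`: at every
vertex the numbers of outgoing and incoming edges differ by at most one. `o e` is true if `e` is
oriented from `a e` to `b e`. -/
theorem bal_orient {E V : Type} [Finite E] (a b : E → V) : ∃ o : E → Bool, ∀ v : V,
    {e : E | (if o e then a e else b e) = v}.ncard ≤
      {e : E | (if o e then b e else a e) = v}.ncard + 1 ∧
    {e : E | (if o e then b e else a e) = v}.ncard ≤
      {e : E | (if o e then a e else b e) = v}.ncard + 1 := by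
  classical
  obtain ⟨vt, hvt⟩ : ∃ vt : E × Bool → V, ∀ d, vt d = if d.2 then a d.1 else b d.1 :=
    ⟨_, fun d => rfl⟩
  have hex : ∀ v, ∃ q : {d // vt d = v} → {d // vt d = v}, (∀ x, q (q x) = x) ∧
      ∀ x y, q x = x → q y = y → x = y := fun v => exists_invol
  choose q hq hqf using hex
  obtain ⟨Q, hQ⟩ : ∃ Q : E × Bool → E × Bool, ∀ v (z : {d // vt d = v}), Q z = q v z := by
    refine ⟨fun x => q (vt x) ⟨x, rfl⟩, ?_⟩
    rintro v ⟨x, rfl⟩
    rfl
  have hQx : ∀ x, Q x = q (vt x) ⟨x, rfl⟩ := fun x => hQ (vt x) ⟨x, rfl⟩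
  have hQv : ∀ x, vt (Q x) = vt x := fun x => by
    rw [hQx]
    exact (q (vt x) ⟨x, rfl⟩).2
  have hQQ : ∀ x, Q (Q x) = x := fun x => by
    rw [hQx x, hQ, hq]
  have hQf : ∀ x y, vt x = vt y → Q x = x → Q y = y → x = y := by
    intro x y hxy hx hy
    have h1 := hQ (vt x) ⟨x, rfl⟩
    have h2 := hQ (vt x) ⟨y, hxy.symm⟩
    have h3 := hqf (vt x) ⟨x, rfl⟩ ⟨y, hxy.symm⟩ (Subtype.ext (h1.symm.trans hx))
      (Subtype.ext (h2.symm.trans hy))
    exact congrArg Subtype.val h3
  obtain ⟨c, hc1, hc2⟩ := two_col_part (A := E × Bool) (p := fun d => (d.1, !d.2)) (q := Q)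
    (fun d => by simp) (fun d h => by
      have := congrArg Prod.snd h
      simp at this) hQQ
  refine ⟨fun e => c (e, true), ?_⟩
  intro v
  -- the half edges of the colour `s` at `v`
  have hcol : ∀ (s : Bool), {e : E | (if (c (e, true) = s) then a e else b e) = v}.ncard =
      {d : E × Bool | vt d = v ∧ c d = s}.ncard := by
    intro s
    apply Set.ncard_congr (fun e _ => (e, c (e, true) == s))
    · intro e he
      change (if (c (e, true) = s) then a e else b e) = v at he
      have hf : c (e, false) = !c (e, true) := hc1 (e, true)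
      refine ⟨?_, ?_⟩
      · rw [hvt, ← he]
        by_cases h : c (e, true) = s
        · simp [h]
        · simp [h]
      · by_cases h : c (e, true) = s
        · have h2 : (c (e, true) == s) = true := by simp [h]
          rw [h2]
          exact h
        · have h2 : (c (e, true) == s) = false := by simp [h]
          rw [h2, hf]
          exact bool_not_eq h
    · intro e e' _ _ h
      exact congrArg Prod.fst h
    · rintro ⟨e, t⟩ ⟨h1, h2⟩
      have hf : c (e, false) = !c (e, true) := hc1 (e, true)
      refine ⟨e, ?_, ?_⟩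
      · change (if (c (e, true) = s) then a e else b e) = v
        rw [← h1, hvt]
        cases t
        · rw [hf] at h2
          have h3 : c (e, true) ≠ s := by
            intro h4
            rw [h4] at h2
            cases s <;> simp at h2
          simp [h3]
        · simp [h2]
      · cases t
        · rw [hf] at h2
          have h3 : c (e, true) ≠ s := by
            intro h4
            rw [h4] at h2
            cases s <;> simp at h2
          simp [h3]
        · simp [h2]
  have hle : ∀ s : Bool, {d : E × Bool | vt d = v ∧ c d = s}.ncard ≤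
      {d : E × Bool | vt d = v ∧ c d = !s}.ncard + 1 := by
    intro s
    have h1 : {d : E × Bool | vt d = v ∧ c d = s} ⊆
        Q '' {d : E × Bool | vt d = v ∧ c d = !s} ∪ {d : E × Bool | vt d = v ∧ Q d = d} := by
      rintro d ⟨h1, h2⟩
      by_cases h : Q d = d
      · exact Or.inr ⟨h1, h⟩
      · left
        refine ⟨Q d, ⟨(hQv d).trans h1, ?_⟩, hQQ d⟩
        rw [hc2 d h, h2]
    have h2 : {d : E × Bool | vt d = v ∧ Q d = d}.ncard ≤ 1 := by
      rw [Set.ncard_le_one (Set.toFinite _)]
      intro x hx y hy
      exact hQf x y (hx.1.trans hy.1.symm) hx.2 hy.2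
    refine (Set.ncard_le_ncard h1 (Set.toFinite _)).trans ((Set.ncard_union_le _ _).trans ?_)
    exact add_le_add (Set.ncard_image_le (Set.toFinite _)) h2
  have e1 : {e : E | (if c (e, true) then a e else b e) = v}.ncard =
      {d : E × Bool | vt d = v ∧ c d = true}.ncard := by
    rw [← hcol true]
  have e2 : {e : E | (if c (e, true) then b e else a e) = v}.ncard =
      {d : E × Bool | vt d = v ∧ c d = false}.ncard := by
    rw [← hcol false]
    congr 1
    ext e
    change (if c (e, true) then b e else a e) = v ↔ (if c (e, true) = false then a e else b e) = v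
    cases h : c (e, true)
    · simp
    · simp
  rw [e1, e2]
  exact ⟨hle true, hle false⟩

end Pool.Agent.EQC.H92
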