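import Pool.Agent.EQC.Stmts

/-!
# EQC row SUP: the super-hub items
-/

open SimpleGraph Finset
open Pool.Agent.Helper51_Equitable (edges nbrs vertexSum nb IsEquitableProper Nice)

namespace Pool.Agent.EQC.H92

section

variable {V : Type} [Fintype V] {G : SimpleGraph V} {D : ℕ}

/-- the low vertices with an edge oriented to `t` -/
noncomputable def lowIn (G : SimpleGraph V) (D : ℕ) (Out : V → V → Prop) (t : V) : Finset V := by
  classical
  exact univ.filter fun y => ¬ Hi G D y ∧ Out y t

theorem mem_lowIn {Out : V → V → Prop} {t y : V} :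
    y ∈ lowIn G D Out t ↔ ¬ Hi G D y ∧ Out y t := by
  classical
  unfold lowIn
  simp

theorem card_lowIn {Out : V → V → Prop} {t : V} :
    (lowIn G D Out t).card = cnt (fun y => ¬ Hi G D y ∧ Out y t) := by
  classical
  unfold cnt
  apply congrArg Finset.card
  ext y
  simp [mem_lowIn]

theorem lowIn_big {Out : V → V → Prop} {t : V} {c : ℕ} (hb : Big c D) (h : LT G D Out t) :
    2 * (4 * c + 11) + 2 ≤ (lowIn G D Out t).card := by
  obtain ⟨h1, h2⟩ := h
  rw [← card_lowIn] at h2
  obtain ⟨h3, h4⟩ := hb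
  unfold Hi at h1
  omega

/-- the next vertex of type L -/
theorem next_exists (d : Dat G D) (hr0 : LT G D d.Out d.r0) (hne : ∃ v, LT G D d.Out v ∧ v ≠ d.r0) :
    ∃ (s0 : V) (nx : V → V),
      (∀ t, LT G D d.Out t → t ≠ d.r0 →
        LT G D d.Out (nx t) ∧ (d.rk t < d.rk (nx t) ∨ (t = s0 ∧ nx t = d.r0))) ∧
      (∀ t u, LT G D d.Out t → t ≠ d.r0 → LT G D d.Out u → u ≠ d.r0 → nx t = nx u → t = u) := by
  classical
  let Lam : Finset V := univ.filter fun v => LT G D d.Out v
  have hLam : ∀ v, v ∈ Lam ↔ LT G D d.Out v := fun v => by simp [Lam]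
  obtain ⟨v0, hv0, _⟩ := hne
  obtain ⟨s0, hs0, hmax⟩ := Finset.exists_max_image Lam d.rk ⟨v0, (hLam v0).2 hv0⟩
  have hex : ∀ t, ∃ u, (∃ v, LT G D d.Out v ∧ d.rk t < d.rk v) →
      (LT G D d.Out u ∧ d.rk t < d.rk u ∧ ∀ v, LT G D d.Out v → d.rk t < d.rk v → d.rk u ≤ d.rk v) := by
    intro t
    by_cases h : ∃ v, LT G D d.Out v ∧ d.rk t < d.rk v
    · obtain ⟨v, hv, htv⟩ := h
      obtain ⟨u, hu, hmin⟩ := Finset.exists_min_image (Lam.filter fun v => d.rk t < d.rk v) d.rk
        ⟨v, Finset.mem_filter.2 ⟨(hLam v).2 hv, htv⟩⟩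
      obtain ⟨hu1, hu2⟩ := Finset.mem_filter.1 hu
      refine ⟨u, fun _ => ⟨(hLam u).1 hu1, hu2, fun w hw htw => ?_⟩⟩
      exact hmin w (Finset.mem_filter.2 ⟨(hLam w).2 hw, htw⟩)
    · exact ⟨t, fun h' => absurd h' h⟩
  choose g hg using hex
  refine ⟨s0, fun t => if (∃ v, LT G D d.Out v ∧ d.rk t < d.rk v) then g t else d.r0, ?_, ?_⟩
  · intro t ht htr
    by_cases h : ∃ v, LT G D d.Out v ∧ d.rk t < d.rk v
    · simp only [if_pos h]
      exact ⟨(hg t h).1, Or.inl (hg t h).2.1⟩
    · simp only [if_neg h]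
      refine ⟨hr0, Or.inr ⟨?_, trivial⟩⟩
      apply d.rank.inj
      have h1 : d.rk t ≤ d.rk s0 := hmax t ((hLam t).2 ht)
      have h2 : ¬ d.rk t < d.rk s0 := fun h3 => h ⟨s0, (hLam s0).1 hs0, h3⟩
      omega
  · -- injectivity: no two different ranks
    have key : ∀ t u, LT G D d.Out t → t ≠ d.r0 → LT G D d.Out u → u ≠ d.r0 → d.rk t < d.rk u →
        (if (∃ v, LT G D d.Out v ∧ d.rk t < d.rk v) then g t else d.r0) ≠
        (if (∃ v, LT G D d.Out v ∧ d.rk u < d.rk v) then g u else d.r0) := by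
      intro t u _ _ hu _ hlt heq
      have ht' : ∃ v, LT G D d.Out v ∧ d.rk t < d.rk v := ⟨u, hu, hlt⟩
      rw [if_pos ht'] at heq
      obtain ⟨_, h2, h3⟩ := hg t ht'
      have h4 := h3 u hu hlt
      by_cases hu' : ∃ v, LT G D d.Out v ∧ d.rk u < d.rk v
      · rw [if_pos hu'] at heq
        have h5 := (hg u hu').2.1
        rw [← heq] at h5
        omega
      · rw [if_neg hu'] at heq
        rw [heq] at h2
        by_cases htr : t = d.r0
        · rw [htr] at h2
          omega
        · have := d.rank.first t htr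
          omega
    intro t u ht htr hu hur heq
    rcases Nat.lt_trichotomy (d.rk t) (d.rk u) with h | h | h
    · exact absurd heq (key t u ht htr hu hur h)
    · exact d.rank.inj _ _ h
    · exact absurd heq.symm (key u t hu hur ht htr h)

/-- an injective family in a large finset -/
theorem inj_fam {T : Type} (B : Finset T) (k : ℕ) (h : k ≤ B.card) :
    ∃ a : Fin k → T, (∀ j, a j ∈ B) ∧ ∀ i j, a i = a j → i = j := by
  have hc : Fintype.card (Fin k) ≤ Fintype.card B := by
    rw [Fintype.card_fin, Fintype.card_coe]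
    exact h
  obtain ⟨f⟩ := Function.Embedding.nonempty_of_card_le hc
  refine ⟨fun j => (f j : T), fun j => (f j).2, fun i j hij => ?_⟩
  exact f.injective (Subtype.ext hij)

/-- the bad second neighbour of a vertex of degree 2 -/
theorem bad_exists (x t : V) (h : G.Adj x t) :
    ∃ o : Option V, dg G x = 2 → ∀ y, G.Adj x y → y ≠ t → o = some y := by
  classical
  by_cases hd : dg G x = 2
  · have ht : t ∈ nbrs G x := Pool.Agent.Helper51_Equitable.mem_nbrs.2 h
    have h1 : ((nbrs G x).erase t).card = 1 := by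
      rw [Finset.card_erase_of_mem ht]
      unfold dg at hd
      omega
    obtain ⟨z, hz⟩ := Finset.card_eq_one.1 h1
    refine ⟨some z, fun _ y hy hyt => ?_⟩
    have h2 : y ∈ (nbrs G x).erase t :=
      Finset.mem_erase.2 ⟨hyt, Pool.Agent.Helper51_Equitable.mem_nbrs.2 hy⟩
    rw [hz, Finset.mem_singleton] at h2
    rw [h2]
  · exact ⟨none, fun h' => absurd h' hd⟩

/-- **SUP** -/
theorem sup (inj : InjStmt) : SupStmt := by
  classical
  intro V _ G c D d hbig
  by_cases hne : ∃ v, LT G D d.Out v ∧ v ≠ d.r0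
  · have hr0 : LT G D d.Out d.r0 := d.r0_lt ⟨hne.choose, hne.choose_spec.1⟩
    obtain ⟨s0, nx, hnx, hinj⟩ := next_exists d hr0 hne
    -- the a-family
    have hA : ∀ t, ∃ a : Fin (4 * c + 11) → V, LT G D d.Out t →
        (∀ j, a j ∈ lowIn G D d.Out t) ∧ ∀ i j, a i = a j → i = j := by
      intro t
      by_cases h : LT G D d.Out t
      · obtain ⟨a, ha⟩ := inj_fam (lowIn G D d.Out t) (4 * c + 11) (by
          have := lowIn_big hbig h
          omega)
        exact ⟨a, fun _ => ha⟩
      · exact ⟨fun _ => t, fun h' => absurd h' h⟩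
    choose a ha using hA
    have hB : ∀ t, ∃ b : Fin (4 * c + 11) → V, LT G D d.Out t → t ≠ d.r0 →
        (∀ j, b j ∈ lowIn G D d.Out (nx t)) ∧ (∀ i j, b i = b j → i = j) ∧
        (∀ i j, b i ≠ a (nx t) j) ∧
        (∀ j, ¬ (G.Adj (a t j) (b j) ∧ dg G (a t j) = 2 ∧ dg G (b j) = 2)) := by
      intro t
      by_cases h : LT G D d.Out t ∧ t ≠ d.r0
      · obtain ⟨ht, htr⟩ := h
        have hu := (hnx t ht htr).1
        have hbad : ∀ j : Fin (4 * c + 11), ∃ o : Option V, dg G (a t j) = 2 →
            ∀ y, G.Adj (a t j) y → y ≠ t → o = some y := by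
          intro j
          apply bad_exists
          exact d.ori.adj _ _ (mem_lowIn.1 ((ha t ht).1 j)).2
        choose bad hbad using hbad
        obtain ⟨g, hg1, hg2, hg3⟩ := inj (Fin (4 * c + 11)) V univ
          (lowIn G D d.Out (nx t) \ univ.image (a (nx t))) bad (by
            have h1 := lowIn_big hbig hu
            have h2 : (univ.image (a (nx t))).card ≤ 4 * c + 11 := by
              refine le_trans Finset.card_image_le ?_
              rw [Finset.card_univ, Fintype.card_fin]
            have h3 := Finset.le_card_sdiff (univ.image (a (nx t))) (lowIn G D d.Out (nx t))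
            rw [Finset.card_univ, Fintype.card_fin]
            omega)
        refine ⟨g, fun _ _ => ⟨fun j => ?_, fun i j hij => ?_, fun i j hij => ?_, fun j hj => ?_⟩⟩
        · exact (Finset.mem_sdiff.1 (hg1 j (Finset.mem_univ j))).1
        · exact hg3 i (Finset.mem_univ i) j (Finset.mem_univ j) hij
        · apply (Finset.mem_sdiff.1 (hg1 i (Finset.mem_univ i))).2
          rw [hij]
          exact Finset.mem_image_of_mem _ (Finset.mem_univ j)
        · obtain ⟨hadj, hd1, _⟩ := hj
          apply hg2 j (Finset.mem_univ j)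
          apply hbad j hd1 _ hadj
          intro hgt
          have h1 := (mem_lowIn.1 (Finset.mem_sdiff.1 (hg1 j (Finset.mem_univ j))).1).1
          rw [hgt] at h1
          exact h1 ht.1
      · refine ⟨fun _ => t, fun h1 h2 => absurd ⟨h1, h2⟩ h⟩
    choose b hb using hB
    exact ⟨{
      s0 := s0
      nx := nx
      a := a
      b := b
      nx_mem := hnx
      nx_inj := hinj
      a_mem := fun t j ht _ => mem_lowIn.1 ((ha t ht).1 j)
      b_mem := fun t j ht htr => mem_lowIn.1 ((hb t ht htr).1 j)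
      a_inj := fun t i j ht _ hij => (ha t ht).2 i j hij
      b_inj := fun t i j ht htr hij => (hb t ht htr).2.1 i j hij
      ab := by
        intro t u i j ht htr _ _ hnu
        subst hnu
        exact (hb t ht htr).2.2.1 i j
      avoid := fun t j ht htr => (hb t ht htr).2.2.2 j }⟩
  · have hv : ∀ t, LT G D d.Out t → t ≠ d.r0 → False := fun t h1 h2 => hne ⟨t, h1, h2⟩
    exact ⟨{
      s0 := d.r0
      nx := fun t => t
      a := fun t _ => t
      b := fun t _ => t
      nx_mem := fun t h1 h2 => (hv t h1 h2).elim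
      nx_inj := fun t u h1 h2 => (hv t h1 h2).elim
      a_mem := fun t j h1 h2 => (hv t h1 h2).elim
      b_mem := fun t j h1 h2 => (hv t h1 h2).elim
      a_inj := fun t i j h1 h2 => (hv t h1 h2).elim
      b_inj := fun t i j h1 h2 => (hv t h1 h2).elim
      ab := fun t u i j h1 h2 => (hv t h1 h2).elim
      avoid := fun t j h1 h2 => (hv t h1 h2).elim }⟩

end

end Pool.Agent.EQC.H92
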