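import Mathlib

/-!
# Squad EQC (MP_3faef8_co): strong colouring of a graph of bounded degree

Blocks of size `2 ^ t`, conflict graph = union of `t` matchings: there is a colouring with the
colours `Fin t → Bool` which is injective on every block and proper.
-/

set_option autoImplicit false

namespace Pool.Agent.EQC.H92

open Finset

/-- a fixed point free involution on a type with an even number of elements -/
theorem exists_free_invol {A : Type} [Finite A] (h : Even (Nat.card A)) :
    ∃ p : A → A, (∀ x, p (p x) = x) ∧ ∀ x, p x ≠ x := by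
  obtain ⟨n, hn⟩ := h
  obtain ⟨e⟩ : Nonempty (A ≃ Fin n × Bool) := by
    rw [← Finite.card_eq, hn, Nat.card_prod, Nat.card_eq_fintype_card, Nat.card_eq_fintype_card,
      Fintype.card_fin, Fintype.card_bool]
    ring
  refine ⟨fun x => e.symm ((e x).1, !(e x).2), ?_, ?_⟩
  · intro x
    simp
  · intro x h
    have h1 := congrArg e h
    rw [Equiv.apply_symm_apply] at h1
    have h2 := congrArg Prod.snd h1
    simp at h2

/-- a map on a set without fixed points: two colours -/
theorem two_col {A : Type} [Finite A] {p : A → A} (hp : ∀ x, p (p x) = x) (hf : ∀ x, p x ≠ x) :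
    ∃ c : A → Bool, ∀ x, c (p x) = !(c x) := by
  obtain ⟨n, ⟨e⟩⟩ := Finite.exists_equiv_fin A
  refine ⟨fun x => decide (e x < e (p x)), ?_⟩
  intro x
  have h1 : e (p x) ≠ e x := fun h => hf x (e.injective h)
  change decide (e (p x) < e (p (p x))) = !(decide (e x < e (p x)))
  rw [hp]
  rcases lt_or_gt_of_ne h1 with h | h
  · rw [decide_eq_true h, decide_eq_false (not_lt.2 h.le)]
    rfl
  · rw [decide_eq_true h, decide_eq_false (not_lt.2 h.le)]
    rfl

/-- the union of two perfect matchings is bipartite -/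
theorem two_col_two {A : Type} [Finite A] {p q : A → A} (hp : ∀ x, p (p x) = x)
    (hpf : ∀ x, p x ≠ x) (hq : ∀ x, q (q x) = x) (hqf : ∀ x, q x ≠ x) :
    ∃ c : A → Bool, (∀ x, c (p x) = !(c x)) ∧ ∀ x, c (q x) = !(c x) := by
  obtain ⟨P, hP⟩ : ∃ P : Equiv.Perm A, ∀ x, P x = p x :=
    ⟨⟨p, p, hp, hp⟩, fun x => rfl⟩
  obtain ⟨Q, hQ⟩ : ∃ Q : Equiv.Perm A, ∀ x, Q x = q x :=
    ⟨⟨q, q, hq, hq⟩, fun x => rfl⟩
  have hPP : ∀ x, P (P x) = x := fun x => by rw [hP, hP, hp]
  have hQQ : ∀ x, Q (Q x) = x := fun x => by rw [hQ, hQ, hq]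
  have hPi : P⁻¹ = P := by
    ext x
    rw [Equiv.Perm.inv_eq_iff_eq, hPP]
  have hQi : Q⁻¹ = Q := by
    ext x
    rw [Equiv.Perm.inv_eq_iff_eq, hQQ]
  obtain ⟨σ, hσ⟩ : ∃ σ, σ = P * Q := ⟨_, rfl⟩
  have hPσ : P * σ = σ⁻¹ * P := by
    rw [hσ, mul_inv_rev, hPi, hQi]
    ext x
    simp only [Equiv.Perm.mul_apply, hPP]
  have hPσk : ∀ k : ℤ, P * σ ^ k = (σ ^ k)⁻¹ * P := by
    intro k
    have h1 : P * σ * P⁻¹ = σ⁻¹ := by rw [hPσ, mul_inv_cancel_right]
    have h2 : P * σ ^ k * P⁻¹ = (σ ^ k)⁻¹ := by
      rw [← conj_zpow, h1, inv_zpow]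
    rw [← h2, inv_mul_cancel_right]
  have hQσ : Q = P * σ := by
    rw [hσ]
    ext x
    simp only [Equiv.Perm.mul_apply, hPP]
  -- `P x` is in another cycle
  have hdiff : ∀ x, ¬ σ.SameCycle x (P x) := by
    rintro x ⟨k, hk⟩
    rcases Int.even_or_odd' k with ⟨j, rfl | rfl⟩
    · have h1 : P ((σ ^ j) x) = (σ ^ j) x := by
        have h2 := congrFun (congrArg (fun f : Equiv.Perm A => (f : A → A)) (hPσk j)) x
        simp only [Equiv.Perm.mul_apply] at h2
        rw [h2, ← hk, two_mul, zpow_add, ← Equiv.Perm.mul_apply, inv_mul_cancel_left]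
      rw [hP] at h1
      exact hpf _ h1
    · have h1 : Q ((σ ^ j) x) = (σ ^ j) x := by
        have h2 : Q ((σ ^ j) x) = P ((σ ^ (j + 1)) x) := by
          rw [hQσ, Equiv.Perm.mul_apply, add_comm, zpow_add, zpow_one, Equiv.Perm.mul_apply]
        have h3 := congrFun (congrArg (fun f : Equiv.Perm A => (f : A → A)) (hPσk (j + 1))) x
        simp only [Equiv.Perm.mul_apply] at h3
        rw [h2, h3, ← hk, show 2 * j + 1 = (j + 1) + j by ring, zpow_add σ (j + 1) j,
          ← Equiv.Perm.mul_apply, inv_mul_cancel_left]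
      rw [hQ] at h1
      exact hqf _ h1
  -- `P` acts on the cycles
  have hmap : ∀ x y, σ.SameCycle x y → σ.SameCycle (P x) (P y) := by
    rintro x y ⟨k, rfl⟩
    refine ⟨-k, ?_⟩
    have h2 := congrFun (congrArg (fun f : Equiv.Perm A => (f : A → A)) (hPσk k)) x
    simp only [Equiv.Perm.mul_apply] at h2
    rw [h2, zpow_neg]
  let S := Equiv.Perm.SameCycle.setoid σ
  obtain ⟨π, hπ⟩ : ∃ π : Quotient S → Quotient S, ∀ x, π (Quotient.mk S x) = Quotient.mk S (P x) :=
    ⟨Quotient.map P hmap, fun x => rfl⟩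
  obtain ⟨c, hc⟩ := two_col (A := Quotient S) (p := π)
    (by
      intro x
      obtain ⟨y, rfl⟩ := Quotient.exists_rep x
      rw [hπ, hπ, hPP])
    (by
      intro x
      obtain ⟨y, rfl⟩ := Quotient.exists_rep x
      rw [hπ]
      intro h
      exact hdiff y (Quotient.exact h).symm)
  refine ⟨fun x => c (Quotient.mk S x), ?_, ?_⟩
  · intro x
    rw [← hc, hπ, hP]
  · intro x
    have h1 : Quotient.mk S (q x) = Quotient.mk S (P x) := by
      apply Quotient.sound
      have h2 : q x = P (σ x) := by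
        rw [← hQ, hQσ, Equiv.Perm.mul_apply]
      rw [h2]
      exact hmap _ _ (Equiv.Perm.SameCycle.refl σ x).apply_left
    rw [← hc, hπ]
    change c (Quotient.mk S (q x)) = c (Quotient.mk S (P x))
    rw [h1]

/-- a type with a fixed point free involution has an even number of elements -/
theorem even_of_free {A : Type} [Finite A] {p : A → A} (hp : ∀ x, p (p x) = x)
    (hf : ∀ x, p x ≠ x) : Even (Nat.card A) := by
  obtain ⟨c, hc⟩ := two_col hp hf
  have e1 : {x // c x = true} ≃ {x // c x = false} :=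
    { toFun := fun x => ⟨p x, by rw [hc, x.2]; rfl⟩
      invFun := fun x => ⟨p x, by rw [hc, x.2]; rfl⟩
      left_inv := fun x => Subtype.ext (hp x)
      right_inv := fun x => Subtype.ext (hp x) }
  have e2 : A ≃ {x // c x = true} ⊕ {x // c x = false} :=
    { toFun := fun x => if h : c x = true then Sum.inl ⟨x, h⟩ else
        Sum.inr ⟨x, by cases hx : c x <;> simp_all⟩
      invFun := fun y => Sum.elim (fun x => x.1) (fun x => x.1) y
      left_inv := by
        intro x
        by_cases h : c x = true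
        · simp [h]
        · simp [h]
      right_inv := by
        rintro (⟨x, h⟩ | ⟨x, h⟩)
        · simp [h]
        · simp [h] }
  rw [Nat.card_congr e2, Nat.card_sum, Nat.card_congr e1]
  exact ⟨_, rfl⟩

/-- the union of a perfect matching and a matching is bipartite -/
theorem two_col_part {A : Type} [Finite A] {p q : A → A} (hp : ∀ x, p (p x) = x)
    (hpf : ∀ x, p x ≠ x) (hq : ∀ x, q (q x) = x) :
    ∃ c : A → Bool, (∀ x, c (p x) = !(c x)) ∧ ∀ x, q x ≠ x → c (q x) = !(c x) := by
  classical
  have h1 := even_of_free hp hpf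
  have h2 : Even (Nat.card {x // ¬ q x = x}) := by
    apply even_of_free (p := fun x : {x // ¬ q x = x} => (⟨q x, by
      rw [hq]
      exact fun h => x.2 h.symm⟩ : {x // ¬ q x = x}))
    · intro x
      exact Subtype.ext (hq x)
    · intro x h
      exact x.2 (congrArg Subtype.val h)
  have h3 : Even (Nat.card {x // q x = x}) := by
    have h4 : Nat.card A = Nat.card {x // q x = x} + Nat.card {x // ¬ q x = x} := by
      rw [← Nat.card_sum]
      exact Nat.card_congr (Equiv.sumCompl (fun x => q x = x)).symm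
    rw [h4] at h1
    exact (Nat.even_add.1 h1).2 h2
  obtain ⟨r, hr, hrf⟩ := exists_free_invol h3
  obtain ⟨q', hq'⟩ : ∃ q' : A → A, ∀ x, q' x = if h : q x = x then (r ⟨x, h⟩ : A) else q x :=
    ⟨_, fun x => rfl⟩
  have hq1 : ∀ x (h : q x = x), q' x = r ⟨x, h⟩ := fun x h => by rw [hq', dif_pos h]
  have hq2 : ∀ x, ¬ q x = x → q' x = q x := fun x h => by rw [hq', dif_neg h]
  obtain ⟨c, hc1, hc2⟩ := two_col_two (q := q') hp hpf
    (by
      intro x
      by_cases h : q x = x
      · rw [hq1 x h, hq1 _ (r ⟨x, h⟩).2]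
        have h5 : (⟨(r ⟨x, h⟩ : A), (r ⟨x, h⟩).2⟩ : {x // q x = x}) = r ⟨x, h⟩ := rfl
        rw [h5, hr]
      · rw [hq2 x h, hq2 (q x) (by rw [hq]; exact fun h' => h h'.symm), hq])
    (by
      intro x
      by_cases h : q x = x
      · rw [hq1 x h]
        exact fun h' => hrf ⟨x, h⟩ (Subtype.ext h')
      · rw [hq2 x h]
        exact h)
  refine ⟨c, hc1, fun x hx => ?_⟩
  rw [← hc2, hq2 x hx]

/-- strong colouring for a union of `t` matchings, blocks of size `2 ^ t` -/
theorem strong_matchings {E : Type} [Finite E] : ∀ (t : ℕ) {β : Type} (b : E → β),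
    (∀ y, Nat.card {x // b x = y} = 2 ^ t) → ∀ M : Fin t → E → E, (∀ i x, M i (M i x) = x) →
    ∃ κ : E → Fin t → Bool, (∀ x y, b x = b y → κ x = κ y → x = y) ∧
      ∀ i x, M i x ≠ x → κ (M i x) ≠ κ x := by
  intro t
  induction t with
  | zero =>
    intro β b hb M hM
    refine ⟨fun _ i => true, ?_, fun i => i.elim0⟩
    intro x y hxy _
    have h1 : Nat.card {z // b z = b y} = 1 := hb (b y)
    rw [Nat.card_eq_one_iff_unique] at h1
    have h2 := h1.1.elim (⟨x, hxy⟩ : {z // b z = b y}) ⟨y, rfl⟩
    exact congrArg Subtype.val h2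
  | succ t ih =>
    intro β b hb M hM
    classical
    have hev : ∀ y, ∃ f : {x // b x = y} → {x // b x = y}, (∀ x, f (f x) = x) ∧ ∀ x, f x ≠ x := by
      intro y
      apply exists_free_invol
      rw [hb, pow_succ]
      exact even_two.mul_left _
    choose f hf hff using hev
    obtain ⟨P, hP⟩ : ∃ P : E → E, ∀ y (z : {x // b x = y}), P z = f y z := by
      refine ⟨fun x => f (b x) ⟨x, rfl⟩, ?_⟩
      rintro y ⟨x, rfl⟩
      rfl
    have hPx : ∀ x, P x = f (b x) ⟨x, rfl⟩ := fun x => hP (b x) ⟨x, rfl⟩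
    have hPb : ∀ x, b (P x) = b x := fun x => by
      rw [hPx]
      exact (f (b x) ⟨x, rfl⟩).2
    have hPP : ∀ x, P (P x) = x := fun x => by
      rw [hPx x, hP, hf]
    have hPf : ∀ x, P x ≠ x := fun x h => by
      rw [hPx] at h
      exact hff (b x) ⟨x, rfl⟩ (Subtype.ext h)
    obtain ⟨c, hc1, hc2⟩ := two_col_part hPP hPf (hM 0)
    have hfib : ∀ y : β × Bool, Nat.card {x // (b x, c x) = y} = 2 ^ t := by
      have h1 : ∀ (y : β) (s : Bool), Nat.card {x // (b x, c x) = (y, s)} =
          Nat.card {x // (b x, c x) = (y, !s)} := by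
        intro y s
        apply Nat.card_congr
        have key : ∀ (s' : Bool) (x : E), (b x, c x) = (y, s') → (b (P x), c (P x)) = (y, !s') := by
          intro s' x hx
          rw [Prod.mk.injEq] at hx ⊢
          rw [hPb, hc1, hx.1, hx.2]
          exact ⟨rfl, rfl⟩
        exact
          { toFun := fun x => ⟨P x, key s x x.2⟩
            invFun := fun x => ⟨P x, by
              have h2 := key (!s) x x.2
              rwa [Bool.not_not] at h2⟩
            left_inv := fun x => Subtype.ext (hPP x)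
            right_inv := fun x => Subtype.ext (hPP x) }
      have h2 : ∀ y : β, Nat.card {x // b x = y} = Nat.card {x // (b x, c x) = (y, true)} +
          Nat.card {x // (b x, c x) = (y, false)} := by
        intro y
        rw [← Nat.card_sum]
        apply Nat.card_congr
        exact
          { toFun := fun x => if h : c x = true then Sum.inl ⟨x, by rw [x.2, h]⟩ else
              Sum.inr ⟨x, by
                rw [x.2]
                cases hx : c (x : E)
                · rfl
                · exact absurd hx h⟩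
            invFun := fun z => Sum.elim
              (fun x => ⟨x.1, congrArg Prod.fst x.2⟩) (fun x => ⟨x.1, congrArg Prod.fst x.2⟩) z
            left_inv := by
              intro x
              by_cases h : c x = true
              · simp [h]
              · simp [h]
            right_inv := by
              rintro (⟨x, h⟩ | ⟨x, h⟩)
              · have h3 : c x = true := congrArg Prod.snd h
                simp [h3]
              · have h3 : c x = false := congrArg Prod.snd h
                simp [h3] }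
      rintro ⟨y, s⟩
      have h3 := h2 y
      rw [hb, pow_succ] at h3
      have h4 := h1 y true
      change _ = Nat.card {x // (b x, c x) = (y, false)} at h4
      cases s
      · omega
      · omega
    obtain ⟨κ, hκ1, hκ2⟩ := ih (fun x => (b x, c x)) hfib (fun i => M i.succ)
      (fun i x => hM i.succ x)
    refine ⟨fun x => Fin.cons (c x) (κ x), ?_, ?_⟩
    · intro x y hxy h
      have h0 : c x = c y := congrFun h 0
      have h1 : κ x = κ y := by
        funext i
        exact congrFun h i.succ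
      exact hκ1 x y (by rw [hxy, h0]) h1
    · intro i x hx h
      refine Fin.cases ?_ ?_ i hx h
      · intro hx h
        have h0 : c (M 0 x) = c x := congrFun h 0
        rw [hc2 x hx] at h0
        cases hcx : c x <;> rw [hcx] at h0 <;> exact absurd h0 (by decide)
      · intro i hx h
        apply hκ2 i x hx
        funext j
        exact congrFun h j.succ

open scoped Classical in
/-- greedy colouring of the edges -/
theorem edge_col {E : Type} [Finite E] (t Δ : ℕ) (ht : 2 * Δ ≤ t) (ht0 : 0 < t)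
    (s : Finset (Sym2 E)) (hs : ∀ v : E, (s.filter fun e => v ∈ e).card ≤ Δ) :
    ∃ f : Sym2 E → Fin t, ∀ e ∈ s, ∀ e' ∈ s, e ≠ e' → (∃ v, v ∈ e ∧ v ∈ e') → f e ≠ f e' := by
  classical
  induction s using Finset.induction_on with
  | empty => exact ⟨fun _ => ⟨0, ht0⟩, fun e he => absurd he (Finset.notMem_empty e)⟩
  | insert e s he ih =>
    have hs' : ∀ v : E, (s.filter fun e => v ∈ e).card ≤ Δ := by
      intro v
      refine le_trans (card_le_card ?_) (hs v)
      exact filter_subset_filter _ (subset_insert e s)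
    obtain ⟨f, hf⟩ := ih hs'
    -- the colours at `e`
    obtain ⟨x, y, rfl⟩ : ∃ x y, e = s(x, y) := by
      induction e using Sym2.ind with
      | _ x y => exact ⟨x, y, rfl⟩
    have hlt : ∀ v, v ∈ s(x, y) → (s.filter fun e' => v ∈ e').card + 1 ≤ Δ := by
      intro v hv
      refine le_trans (le_of_eq ?_) (hs v)
      rw [filter_insert, if_pos hv, card_insert_of_notMem]
      intro h
      exact he (mem_filter.1 h).1
    obtain ⟨i, hi⟩ : ∃ i : Fin t, i ∉ ((s.filter fun e' => x ∈ e') ∪ (s.filter fun e' => y ∈ e')).image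
        f := by
      by_contra hcon
      push Not at hcon
      have h1 : (univ : Finset (Fin t)) ⊆
          ((s.filter fun e' => x ∈ e') ∪ (s.filter fun e' => y ∈ e')).image f := fun i _ => hcon i
      have h2 := (card_le_card h1).trans (card_image_le.trans (card_union_le _ _))
      rw [card_univ, Fintype.card_fin] at h2
      have h3 := hlt x (Sym2.mem_mk_left x y)
      have h4 := hlt y (Sym2.mem_mk_right x y)
      omega
    have hi' : ∀ e' ∈ s, (∃ v, v ∈ s(x, y) ∧ v ∈ e') → f e' ≠ i := by
      rintro e' he' ⟨v, hv, hv'⟩ h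
      apply hi
      rw [mem_image]
      refine ⟨e', ?_, h⟩
      rw [mem_union, mem_filter, mem_filter]
      rcases Sym2.mem_iff.1 hv with rfl | rfl
      · exact Or.inl ⟨he', hv'⟩
      · exact Or.inr ⟨he', hv'⟩
    refine ⟨Function.update f s(x, y) i, ?_⟩
    intro e1 h1 e2 h2 hne hv
    rw [mem_insert] at h1 h2
    rcases h1 with rfl | h1
    · rcases h2 with rfl | h2
      · exact absurd rfl hne
      · rw [Function.update_self, Function.update_of_ne (Ne.symm hne)]
        exact fun h => hi' e2 h2 hv h.symm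
    · rcases h2 with rfl | h2
      · rw [Function.update_self, Function.update_of_ne hne]
        obtain ⟨v, hv1, hv2⟩ := hv
        exact hi' e1 h1 ⟨v, hv2, hv1⟩
      · have n1 : e1 ≠ s(x, y) := fun h => he (h ▸ h1)
        have n2 : e2 ≠ s(x, y) := fun h => he (h ▸ h2)
        rw [Function.update_of_ne n1, Function.update_of_ne n2]
        exact hf e1 h1 e2 h2 hne hv

/-- STRONG COLOURING: blocks of size `2 ^ t`, a conflict graph of maximal degree at most `t / 2` -/
theorem strong_col {E β : Type} [Finite E] (G : SimpleGraph E) (t Δ : ℕ) (ht : 2 * Δ ≤ t)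
    (hG : ∀ v, {w | G.Adj v w}.ncard ≤ Δ) (b : E → β)
    (hb : ∀ y, Nat.card {x // b x = y} = 2 ^ t) :
    ∃ κ : E → Fin (2 ^ t), (∀ x y, b x = b y → κ x = κ y → x = y) ∧
      ∀ x y, G.Adj x y → κ x ≠ κ y := by
  classical
  have := Fintype.ofFinite E
  have ecard : Nonempty ((Fin t → Bool) ≃ Fin (2 ^ t)) := by
    rw [← Finite.card_eq]
    simp [Nat.card_eq_fintype_card]
  obtain ⟨em⟩ := ecard
  rcases Nat.eq_zero_or_pos t with h0 | ht0
  · -- no edges
    subst h0
    obtain ⟨κ, hκ, -⟩ := strong_matchings 0 b hb (fun i => i.elim0) (fun i => i.elim0)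
    refine ⟨fun x => em (κ x), fun x y h1 h2 => hκ x y h1 (em.injective h2), ?_⟩
    intro x y hxy
    exfalso
    have h1 : {w | G.Adj x w}.ncard = 0 := by
      have := hG x
      omega
    rw [Set.ncard_eq_zero (Set.toFinite _)] at h1
    have h2 : y ∈ {w | G.Adj x w} := hxy
    rw [h1] at h2
    exact h2
  obtain ⟨f, hf⟩ := edge_col t Δ ht ht0 G.edgeFinset (by
    intro v
    refine le_trans ?_ (hG v)
    rw [Set.ncard_eq_toFinset_card']
    apply card_le_card_of_surjOn (fun w => s(v, w))
    intro e he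
    rw [mem_coe, mem_filter, SimpleGraph.mem_edgeFinset] at he
    obtain ⟨w, rfl⟩ := he.2
    refine ⟨w, ?_, rfl⟩
    rw [mem_coe, Set.mem_toFinset]
    exact he.1)
  -- the matchings
  obtain ⟨M, hM⟩ : ∃ M : Fin t → E → E, ∀ i x, M i x =
      if h : ∃ y, G.Adj x y ∧ f s(x, y) = i then h.choose else x := ⟨_, fun i x => rfl⟩
  have hM1 : ∀ i x y, G.Adj x y → f s(x, y) = i → M i x = y := by
    intro i x y hxy hi
    have h : ∃ y, G.Adj x y ∧ f s(x, y) = i := ⟨y, hxy, hi⟩
    rw [hM, dif_pos h]
    obtain ⟨h1, h2⟩ := h.choose_spec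
    by_contra hne
    refine hf s(x, h.choose) ?_ s(x, y) ?_ ?_ ⟨x, Sym2.mem_mk_left _ _, Sym2.mem_mk_left _ _⟩
      (h2.trans hi.symm)
    · rw [SimpleGraph.mem_edgeFinset]
      exact h1
    · rw [SimpleGraph.mem_edgeFinset]
      exact hxy
    · intro h3
      exact hne (Sym2.congr_right.1 h3)
  have hM2 : ∀ i x, (¬ ∃ y, G.Adj x y ∧ f s(x, y) = i) → M i x = x := by
    intro i x h
    rw [hM, dif_neg h]
  have hMM : ∀ i x, M i (M i x) = x := by
    intro i x
    by_cases h : ∃ y, G.Adj x y ∧ f s(x, y) = i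
    · obtain ⟨y, h1, h2⟩ := h
      rw [hM1 i x y h1 h2]
      apply hM1 i y x h1.symm
      rw [Sym2.eq_swap]
      exact h2
    · rw [hM2 i x h, hM2 i x h]
  obtain ⟨κ, hκ1, hκ2⟩ := strong_matchings t b hb M hMM
  refine ⟨fun x => em (κ x), fun x y h1 h2 => hκ1 x y h1 (em.injective h2), ?_⟩
  intro x y hxy h
  have h1 := hM1 (f s(x, y)) x y hxy rfl
  apply hκ2 (f s(x, y)) x
  · rw [h1]
    exact hxy.ne'
  · rw [h1]
    exact (em.injective h).symm

end Pool.Agent.EQC.H92
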